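import Pool.Agent.H95.FJ.Defs

set_option autoImplicit false

open MvPolynomial

namespace H42.FJ

open H95.FG H95.FI H95.FJ

theorem t_GRE (hSEML : S_SEML) : S_GRE := by
  classical
  intro n ρ q K I X hρ hq
  let P : ℕ → Prop := fun j => ∃ T : Fin j → (Vn n →ₗ[ℂ] Vn n), (∀ i, T i ∈ X) ∧
    ∃ w ∈ K, LinearIndependent ℂ (fun i => I.mkQ (T i w))
  have hP0 : P 0 := ⟨fun i => i.elim0, fun i => i.elim0, 0, K.zero_mem, linearIndependent_empty_type⟩
  have hPq : ¬ P (q + 1) := by
    rintro ⟨T, hT, w, hw, h⟩
    exact hq T hT w hw h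
  have hex : ∃ m, ¬ P m := ⟨_, hPq⟩
  have hpos : Nat.find hex ≠ 0 := by
    intro h
    have h2 := Nat.find_spec hex
    rw [h] at h2
    exact h2 hP0
  obtain ⟨j, hj⟩ : ∃ j, Nat.find hex = j + 1 := ⟨Nat.find hex - 1, by omega⟩
  have hjq : j ≤ q := by
    have := Nat.find_min' hex hPq
    omega
  have hPj : P j := by
    by_contra h
    have := Nat.find_min' hex h
    omega
  have hPj1 : ¬ P (j + 1) := by
    have := Nat.find_spec hex
    rwa [hj] at this
  obtain ⟨T, hT, w, hw, hli⟩ := hPj
  have hsup : ∀ s : Finset (Fin j),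
      Module.finrank ℂ ↥(s.sup (fun i : Fin j => LinearMap.range (T i))) ≤ s.card * ρ := by
    intro s
    induction s using Finset.induction_on with
    | empty => simp
    | insert a s ha ih =>
      rw [Finset.sup_insert, Finset.card_insert_of_notMem ha]
      have h1 := Submodule.finrank_add_le_finrank_add_finrank (LinearMap.range (T a))
        (s.sup (fun i : Fin j => LinearMap.range (T i)))
      have h2 := hρ (T a) (hT a)
      calc _ ≤ _ := h1
        _ ≤ ρ + s.card * ρ := Nat.add_le_add h2 ih
        _ = (s.card + 1) * ρ := by ring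
  refine ⟨I ⊔ Finset.univ.sup (fun i : Fin j => LinearMap.range (T i)), ?_, le_sup_left, ?_⟩
  · have h1 := Submodule.finrank_add_le_finrank_add_finrank I
      (Finset.univ.sup (fun i : Fin j => LinearMap.range (T i)))
    have h2 := hsup Finset.univ
    rw [Finset.card_univ, Fintype.card_fin] at h2
    have h3 : j * ρ ≤ q * ρ := Nat.mul_le_mul_right _ hjq
    omega
  set J := I ⊔ Finset.univ.sup (fun i : Fin j => LinearMap.range (T i)) with hJ
  have hIJ : I ≤ J := le_sup_left
  have hTJ : ∀ i v, T i v ∈ J := by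
    intro i v
    apply Submodule.mem_sup_right
    exact (Finset.le_sup (f := fun i : Fin j => LinearMap.range (T i)) (Finset.mem_univ i))
      (LinearMap.mem_range_self _ _)
  intro S hS w' hw'
  have hfin := hSEML n j T I w w' hli
  have hgood : ∀ t : ℂ, t ∉ {t : ℂ | ¬ LinearIndependent ℂ
      (fun i => I.mkQ (T i (w + t • (w' - w))))} → S (w + t • (w' - w)) ∈ J := by
    intro t ht
    have hli' : LinearIndependent ℂ (fun i => I.mkQ (T i (w + t • (w' - w)))) := by
      by_contra h
      exact ht h
    have hwt : w + t • (w' - w) ∈ K := K.add_mem hw (K.smul_mem _ (K.sub_mem hw' hw))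
    have hspan : I.mkQ (S (w + t • (w' - w))) ∈ Submodule.span ℂ
        (Set.range (fun i => I.mkQ (T i (w + t • (w' - w))))) := by
      by_contra hns
      apply hPj1
      refine ⟨Fin.cons S T, ?_, w + t • (w' - w), hwt, ?_⟩
      · intro i
        refine Fin.cases ?_ (fun i => ?_) i
        · simpa using hS
        · simpa using hT i
      · have h1 := (linearIndependent_finCons (x := I.mkQ (S (w + t • (w' - w))))
          (v := fun i => I.mkQ (T i (w + t • (w' - w))))).mpr ⟨hli', hns⟩
        have e : (fun i => I.mkQ ((Fin.cons S T : Fin (j + 1) → (Vn n →ₗ[ℂ] Vn n)) i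
            (w + t • (w' - w)))) = (Fin.cons (I.mkQ (S (w + t • (w' - w))))
            (fun i => I.mkQ (T i (w + t • (w' - w)))) : Fin (j + 1) → (Vn n ⧸ I)) := by
          funext i
          refine Fin.cases ?_ (fun i => ?_) i
          · simp only [Fin.cons_zero]
          · simp only [Fin.cons_succ]
        rw [e]
        exact h1
    have hle : Submodule.span ℂ (Set.range (fun i => I.mkQ (T i (w + t • (w' - w))))) ≤
        J.map I.mkQ := by
      rw [Submodule.span_le]
      rintro _ ⟨i, rfl⟩
      exact Submodule.mem_map_of_mem (hTJ i _)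
    obtain ⟨y, hy, hyS⟩ := Submodule.mem_map.mp (hle hspan)
    have h2 : S (w + t • (w' - w)) - y ∈ I := by
      rw [← Submodule.ker_mkQ I, LinearMap.mem_ker, map_sub, hyS, sub_self]
    have h3 := J.add_mem (hIJ h2) hy
    simpa using h3
  obtain ⟨t1, ht1⟩ := hfin.infinite_compl.nonempty
  obtain ⟨t2, ht2⟩ := (hfin.insert t1).infinite_compl.nonempty
  have hne : t2 ≠ t1 := fun e => ht2 (Set.mem_insert_iff.mpr (Or.inl e))
  have ht2' := hgood t2 (fun h => ht2 (Set.mem_insert_of_mem _ h))
  have ht1' := hgood t1 ht1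
  rw [map_add, map_smul] at ht1' ht2'
  have h4 := J.sub_mem ht2' ht1'
  have h5 : S w + t2 • S (w' - w) - (S w + t1 • S (w' - w)) = (t2 - t1) • S (w' - w) := by
    rw [sub_smul]
    abel
  rw [h5] at h4
  have h6 : S (w' - w) ∈ J := (Submodule.smul_mem_iff J (sub_ne_zero.mpr hne)).mp h4
  have h7 : S w ∈ J := by
    have := J.sub_mem ht1' (J.smul_mem t1 h6)
    simpa using this
  have h8 := J.add_mem h7 h6
  rw [← map_add] at h8
  simpa using h8

end H42.FJ
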